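import Mathlib
import Pool.Agent.Helper9.TW.ZDefs
import Pool.Agent.Helper9.FA.Loc
import Pool.Agent.Helper8.FA.RULES

/-!
# Deformed state sums (T12, far part): definitions

Only definitions.
-/

namespace Pool.Agent.Helper28.TX

open Finset Complex
open Pool.Agent.Helper9.Kashaev Pool.Agent.Helper9.FA Pool.Agent.Helper9.TG
open Pool.Agent.Helper9 (TB.lam TB.bb TB.sf TB.sb TB.yk)
open Pool.Agent.Helper9.TF (gm)

/-! ### quantum numbers -/

/-- `v ^ z` -/
noncomputable def vc (N : ℕ) (z : ℂ) : ℂ := Complex.exp (Real.pi * I * z / N)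

/-- the quantum number `[z]` -/
noncomputable def qc (N : ℕ) (z : ℂ) : ℂ := (vc N z - vc N (-z)) / (v N - (v N)⁻¹)

/-- `[z] [z + 1] ... [z + k - 1]` -/
noncomputable def ri (N : ℕ) (z : ℂ) (k : ℕ) : ℂ := ∏ i ∈ range k, qc N (z + i)

/-- `[z] [z - 1] ... [z - k + 1]` -/
noncomputable def fa (N : ℕ) (z : ℂ) (k : ℕ) : ℂ := ∏ i ∈ range k, qc N (z - i)

/-! ### potentials -/

/-- the values of a potential at the regions at the left, bottom, right and top of a vertex -/
structure PV (K : Type) where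
  L : K
  B : K
  R : K
  T : K

/-- turned upside down -/
def PV.flip {K : Type} (q : PV K) : PV K := ⟨q.L, q.T, q.R, q.B⟩

/-- apply a function -/
def PV.map {K K' : Type} (f : K → K') (q : PV K) : PV K' := ⟨f q.L, f q.B, f q.R, f q.T⟩

/-- `Pot c0 c1 P c θ e`: `c` is the list of the values of a potential (a function on the regions of the
pattern) at the bottom of `P`, and `c0`, `c1` are its values at the left and right of the strand at the top;
`θ` lists the values at the vertices; `e` lists the values at the region around and the region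
inside the minima (`true`) and maxima (`false`). -/
inductive Pot {K α : Type} (c0 c1 : K) : List (Item α) → List K → List (PV K) →
    List (Bool × K × K) → Prop
  | nil : Pot c0 c1 [] [c0, c1] [] []
  | cup {P : List (Item α)} {l r : List K} {a m : K} {θ : List (PV K)} {e : List (Bool × K × K)}
      (h : Pot c0 c1 P (l ++ a :: m :: a :: r) θ e) :
      Pot c0 c1 (.cup l.length :: P) (l ++ a :: r) θ ((true, a, m) :: e)
  | cap {P : List (Item α)} {l r : List K} {a m : K} {θ : List (PV K)} {e : List (Bool × K × K)}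
      (h : Pot c0 c1 P (l ++ a :: r) θ e) :
      Pot c0 c1 (.cap l.length :: P) (l ++ a :: m :: a :: r) θ ((false, a, m) :: e)
  | box {P : List (Item α)} {l r : List K} {x : α} {q : PV K} {θ : List (PV K)}
      {e : List (Bool × K × K)} (h : Pot c0 c1 P (l ++ q.L :: q.T :: q.R :: r) θ e) :
      Pot c0 c1 (.box l.length x :: P) (l ++ q.L :: q.B :: q.R :: r) (q :: θ) e

/-- there is a potential with different values at the left and at the right of each vertex -/
def Sep {α : Type} (P : List (Item α)) : Prop :=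
  ∃ (c0 c1 : ℝ) (θ : List (PV ℝ)) (e : List (Bool × ℝ × ℝ)),
    Pot c0 c1 P [c0, c1] θ e ∧ ∀ q ∈ θ, q.L ≠ q.R

/-- a pattern turned upside down -/
def flipI {α : Type} : Item α → Item α
  | .cup k => .cap k
  | .cap k => .cup k
  | .box k a => .box k a

/-- a pattern turned upside down -/
def flipP {α : Type} (P : List (Item α)) : List (Item α) := (P.map flipI).reverse

/-! ### local operators -/

section Loc

variable {M : Type} [AddCommGroup M] [Module ℂ M]

/-- `E` on two strands -/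
noncomputable def EE (N : ℕ) (G : ℕ → ℕ → M) : ℕ → ℕ → M := Z2 N (0 : M →ₗ[ℂ] M) G

/-- the operator on two strands with the matrix `b`; `b i j i'` is the entry from `(i', i + j - i')` to
`(i, j)` -/
noncomputable def bAct (b : ℕ → ℕ → ℕ → ℂ) (G : ℕ → ℕ → M) : ℕ → ℕ → M :=
  fun i j => ∑ i' ∈ range (i + j + 1), b i j i' • G i' (i + j - i')

/-- the right side of the rule for the operator `(Z1 N x)^[t]` and a box with the kernel `κ` -/
noncomputable def rhs (N : ℕ) (κ : Ker ℂ) (x : M →ₗ[ℂ] M) (G : ℕ → ℕ → M) (t : ℕ) : M :=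
  ∑ n ∈ range N, ∑ l ∈ range (t + 1), ∑ r ∈ range (t + 1 - l),
    κ n l r (t - l - r) (N - 1 - t) • (x ^ l) (((Z1 N x)^[t - l - r] ((Z2 N x)^[r] G)) 0 0)

/-- the value of `(Z1 N x)^[t]` at `0 0` if the rows are `R i` -/
noncomputable def rowv (N : ℕ) (x : M →ₗ[ℂ] M) (R : ℕ → M) (t : ℕ) : M :=
  ∑ j ∈ range (t + 1), (v N ^ (((N : ℤ) - 1 - t + j) * j) * qb N t j * qfac N (t - j) ^ 2) •
    (x ^ j) (R (t - j))

/-- the rows of an operator with the coefficients `c` -/
noncomputable def rows (N : ℕ) (c : ℕ → ℕ → ℂ) (G : ℕ → ℕ → M) (t : ℕ) : M :=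
  ∑ i ∈ range (t + 1), c t i • ((EE N)^[t - i] G) i 0

end Loc

/-- `b` is the matrix of an operator on two strands commuting with `E`, with the kernel `κ` -/
structure BoxOK (N : ℕ) (b : ℕ → ℕ → ℕ → ℂ) (κ : Ker ℂ) : Prop where
  supp : ∀ i j i', ¬ (i < N ∧ j < N ∧ i' < N ∧ i' ≤ i + j ∧ i + j - i' < N) → b i j i' = 0
  comm : ∀ (M : Type) [AddCommGroup M] [Module ℂ M] (G : ℕ → ℕ → M), SG N G →
    EE N (bAct b G) = bAct b (EE N G)
  rule : ∀ (M : Type) [AddCommGroup M] [Module ℂ M] (x : M →ₗ[ℂ] M) (G : ℕ → ℕ → M), SG N G →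
    ∀ t < N, ((Z1 N x)^[t] (bAct b G)) 0 0 = rhs N κ x G t

/-- the operator of a box on words -/
noncomputable def bL (b : ℕ → ℕ → ℕ → ℂ) (f : List ℕ → ℂ) : List ℕ → ℂ
  | i :: j :: w => ∑ i' ∈ range (i + j + 1), b i j i' * f (i' :: (i + j - i') :: w)
  | _ => 0

/-- the operator of a pattern of boxes -/
noncomputable def OpP {α : Type} (N : ℕ) : List (Item α) → List (ℕ → ℕ → ℕ → ℂ) →
    (List ℕ → ℂ) → List ℕ → ℂ
  | [], _, f => f
  | .cup k :: P, bs, f => OpP N P bs (Pool.Agent.Helper9.Kashaev.slice N .cup k f)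
  | .cap k :: P, bs, f => OpP N P bs (Pool.Agent.Helper9.Kashaev.slice N .cap k f)
  | .box k _ :: P, b :: bs, f => OpP N P bs (h8P (bL b) k f)
  | .box _ _ :: _, [], _ => fun _ => 0

/-! ### kernels -/

/-- the upper part of the kernel -/
noncomputable def kO (N s : ℕ) (q : PV ℂ) (k l : ℕ) : ℂ :=
  (-1) ^ (k + l) * vc N (2 * ((q.T - q.R) * l - (q.L - q.T) * k)) *
    (qfac N (s + k + l) * qfac N s / (qfac N l * qfac N k)) *
    (ri N (s + 1 - 2 * (q.L - q.T)) l * ri N (s + 1 - 2 * (q.T - q.R)) k) /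
      ri N (2 * s + 2 - 2 * (q.L - q.R)) (k + l)

/-- the lower part of the kernel -/
noncomputable def kI (N s : ℕ) (q : PV ℂ) (k l : ℕ) : ℂ :=
  vc N (2 * ((q.B - q.R) * l - (q.L - q.B) * k)) /
    (qfac N (s - k - l) * qfac N s * qfac N k * qfac N l) *
    (fa N (s - 2 * (q.B - q.R)) k * fa N (s - 2 * (q.L - q.B)) l) /
      fa N (2 * s - 2 * (q.L - q.R)) (k + l)

/-- the conditions for the kernel number `s` -/
def Spl (p s : ℕ) (c : Cor ℕ) : Prop :=
  c.uT + s + c.n ≤ p ∧ c.n ≤ c.uL ∧ p - c.uT - s - c.n ≤ c.uR ∧ c.uB ≤ s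

open Classical in
/-- the kernel number `s` -/
noncomputable def kH (N s : ℕ) (q : PV ℂ) : Ker ℂ := fun n uL uR uB uT =>
  if Spl (N - 1) s ⟨n, uL, uR, uB, uT⟩ then
    kO N s q n (N - 1 - uT - s - n) * kI N s q (uL - n) (uR - (N - 1 - uT - s - n)) else 0

/-- the kernel with given row coefficients (concentrated in `n = 0`) -/
noncomputable def Kf (N : ℕ) (c : ℕ → ℕ → ℂ) : Ker ℂ := fun n _ uR uB uT =>
  if n = 0 then ∑ j ∈ range (N - uT), ∑ i ∈ range (N - uT - j),
    if uB ≤ i ∧ uR ≤ N - 1 - uT - j - i then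
      (v N ^ (((uT : ℤ) + j) * j) * qb N (N - 1 - uT) j * qfac N (N - 1 - uT - j) ^ 2) *
      c (N - 1 - uT - j) i *
      ((-1) ^ (N - 1 - uT - j - i - uR) * v N ^ (-(((N - 1 - uT - j - i - uR : ℕ) : ℤ) *
        (2 * i + (N - 1 - uT - j - i : ℕ) + 1))) * qb N (N - 1 - uT - j - i) uR) *
      (v N ^ (-((i : ℤ) * (i - uB : ℕ))) * qb N i uB / qfac N i ^ 2) else 0
  else 0

/-- the sum over `n` -/
noncomputable def SK (N : ℕ) (κ : Ker ℂ) (uL uR uB uT : ℕ) : ℂ := ∑ n ∈ range N, κ n uL uR uB uT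

/-! ### the boxes -/

/-- `Π 1 / c_i` with `E F^i x = c_i F^(i-1) x` -/
noncomputable def nn (N s : ℕ) (γ : ℂ) (l : ℕ) : ℂ :=
  ∏ i ∈ range l, (-(qi N (i + 1) * qc N (2 * s + 2 + i - 2 * γ)))⁻¹

/-- the highest weight vector number `s` -/
noncomputable def xs (N s : ℕ) (i j : ℕ) : ℂ :=
  if i + j = s then (-1) ^ j * v N ^ ((j : ℤ) * (N - 1) - (j : ℤ) * (j - 1)) * qb N s j ^ 2 else 0

/-- the operator `F` on two strands with the colours `a1`, `a2` -/
noncomputable def F2 (N : ℕ) (a1 a2 : ℂ) (g : ℕ → ℕ → ℂ) : ℕ → ℕ → ℂ := fun i j =>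
  (if 1 ≤ i ∧ i < N then vc N (2 * a2) * (qc N (i - 2 * a1) / qi N i) * g (i - 1) j else 0) +
    (if 1 ≤ j ∧ j < N then
      vc N (-2 * a1) * v N ^ (-wt N i) * (qc N (j - 2 * a2) / qi N j) * g i (j - 1) else 0)

/-- the vectors of the module number `s` -/
noncomputable def Phi (N s : ℕ) (a1 a2 : ℂ) (l : ℕ) : ℕ → ℕ → ℂ := (F2 N a1 a2)^[l] (xs N s)

/-- the form of a strand between regions with the potentials `a` and `b` -/
noncomputable def hf (N : ℕ) (a b : ℂ) (i : ℕ) : ℂ :=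
  v N ^ ((i : ℤ) * ((i : ℤ) - N)) * vc N (-2 * (a + b) * i) * qfac N i ^ 3 /
    ri N (1 - 2 * (a - b)) i

/-- the matrix of the box number `s` -/
noncomputable def tB (N s : ℕ) (q : PV ℂ) : ℕ → ℕ → ℕ → ℂ := fun i j i' =>
  if s ≤ i + j ∧ i + j < s + N ∧ i' ≤ i + j then
    nn N s (q.L - q.R) (i + j - s) *
      (v N ^ (-(((i + j - s : ℕ) : ℤ) * (2 * s + (i + j - s : ℕ) + 1))) *
        vc N (2 * (q.L + q.R) * (i + j - s : ℕ))) *
      (Phi N s (q.L - q.T) (q.T - q.R) (i + j - s) i j *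
        (Phi N s (q.L - q.B) (q.B - q.R) (i + j - s) i' (i + j - i') *
          (hf N q.L q.B i' * hf N q.B q.R (i + j - i')))) else 0

/-- the normalisation of the box number `s` -/
noncomputable def CC (N s : ℕ) (q : PV ℂ) : ℂ :=
  (-1) ^ s * vc N (-4 * q.B * s) * qfac N s ^ 3 * ri N (s + 1 - 2 * (q.L - q.R)) s /
    (ri N (1 - 2 * (q.L - q.B)) s * ri N (1 - 2 * (q.B - q.R)) s)

/-- generic colours -/
structure Gen (N : ℕ) (q : PV ℂ) : Prop where
  g : ∀ j : ℤ, qc N (j - 2 * (q.L - q.R)) ≠ 0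
  b1 : ∀ j : ℕ, 0 < j → j < N → qc N (j - 2 * (q.L - q.B)) ≠ 0
  b2 : ∀ j : ℕ, 0 < j → j < N → qc N (j - 2 * (q.B - q.R)) ≠ 0
  t1 : ∀ j : ℕ, 0 < j → j < N → qc N (j - 2 * (q.L - q.T)) ≠ 0
  t2 : ∀ j : ℕ, 0 < j → j < N → qc N (j - 2 * (q.T - q.R)) ≠ 0

/-! ### row coefficients -/

/-- the coefficients of the lowest functional -/
noncomputable def th (N s : ℕ) (q : PV ℂ) (i : ℕ) : ℂ :=
  vc N (2 * (q.B - q.R) * (s - i : ℕ)) *
    (∏ j ∈ Ico i s, qc N (j + 1 - 2 * (q.L - q.B)) / (qi N (j + 1) * qc N (s + j + 1 - 2 * (q.L - q.R)))) /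
    qfac N (s - i)

/-- the row coefficients of the box number `s`, normalised -/
noncomputable def cT (N s : ℕ) (q : PV ℂ) (t i : ℕ) : ℂ :=
  if i ≤ s ∧ s ≤ t then nn N s (q.L - q.R) (t - s) *
    (∏ j ∈ Ico s t, vc N (2 * (q.T - q.R)) * (qc N (j + 1 - 2 * (q.L - q.T)) / qi N (j + 1))) *
      th N s q i else 0

/-- the eigenvalues of the Casimir operator -/
noncomputable def lamq (N : ℕ) (γ : ℂ) (j : ℕ) : ℂ :=
  vc N (1 + 2 * j - 2 * γ) + vc N (-(1 + 2 * j - 2 * γ))

/-- the coefficient of `⟨t, 0| Cas` -/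
noncomputable def gq (N : ℕ) (q : PV ℂ) (j : ℕ) : ℂ :=
  (v N - (v N)⁻¹) ^ 2 * (vc N (2 * (q.B - q.R)) * (qc N (j - 2 * (q.L - q.B)) / qi N j))

/-- the ratio of the rows for the upper and lower colours -/
noncomputable def rt (N : ℕ) (q : PV ℂ) (t : ℕ) : ℂ := ∏ j ∈ range t,
  (vc N (2 * (q.T - q.R)) * qc N (j + 1 - 2 * (q.L - q.T))) /
    (vc N (2 * (q.B - q.R)) * qc N (j + 1 - 2 * (q.L - q.B)))

/-- the row coefficients of a product of factors `Cas - μ` -/
noncomputable def rP (g lam : ℕ → ℂ) : List ℂ → ℕ → ℕ → ℂ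
  | [], t, i => if i = t then 1 else 0
  | μ :: L, t, i => (lam t - μ) * rP g lam L t i + (if 1 ≤ t then g t * rP g lam L (t - 1) i else 0)

/-- the list of the eigenvalues, without number `s` (and without number `N - 1 - s` if `b`) -/
noncomputable def lamL (N : ℕ) (γ : ℂ) (b : Bool) (s : ℕ) : List ℂ :=
  ((List.range N).filter fun j => j ≠ s ∧ ¬ (b = true ∧ j + s + 1 = N)).map (lamq N γ)

/-- the row coefficients of the analytic family of boxes -/
noncomputable def cA (N : ℕ) (q : PV ℂ) (b : Bool) (s : ℕ) (t i : ℕ) : ℂ :=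
  rt N q t * rP (gq N q) (lamq N (q.L - q.R)) (lamL N (q.L - q.R) b s) t i

/-- the kernels of the far part -/
noncomputable def ndk (N : ℕ) (b : Bool) (k : ℕ) : Ker ℂ := fun n uL uR uB uT =>
  (if b = true then deriv (gm N n) (TB.yk N k : ℂ) else gm N n (TB.yk N k : ℂ)) *
    (Wt N (N - 1 - n) uL uR uB uT : ℝ)

/-! ### bilinear forms -/

/-- the sum over all words of length `n` -/
noncomputable def wsum (N : ℕ) : ℕ → (List ℕ → ℂ) → ℂ
  | 0, f => f []
  | n + 1, f => ∑ a ∈ range N, wsum N n fun w => f (a :: w)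

/-- the form on words, for the list of potentials of the regions -/
noncomputable def hl (N : ℕ) : List ℂ → List ℕ → ℂ
  | a :: b :: c, i :: w => hf N a b i * hl N (b :: c) w
  | _, _ => 1

/-- the bilinear form -/
noncomputable def prg (N : ℕ) (c : List ℂ) (f g : List ℕ → ℂ) : ℂ :=
  wsum N (c.length - 1) fun w => hl N c w * (f w * g w)

/-- the factor of a minimum -/
noncomputable def kc (N : ℕ) (a m : ℂ) : ℂ :=
  hf N a m 0 * hf N m a (N - 1) * cupC N 0 / capC N 0

/-! ### exponents -/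

/-- `Λ (π x) / π` -/
noncomputable def Lam (x : ℝ) : ℝ := lobachevsky (Real.pi * x) / Real.pi

/-- the exponent at a trivalent vertex -/
noncomputable def upF (σ u k l : ℝ) : ℝ :=
  Lam u - Lam (u - σ) + (Lam k - Lam (k + σ)) + (Lam l - Lam (l + σ)) + (3 * Lam σ - Lam (2 * σ))

/-- the exponent at a trivalent vertex -/
noncomputable def lowF (σ u k l : ℝ) : ℝ :=
  Lam u - Lam (u + σ) + (Lam k - Lam (k - σ)) + (Lam l - Lam (l - σ)) - (3 * Lam σ - Lam (2 * σ))

/-- the exponent for the central node -/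
noncomputable def fulF (x : ℝ) : ℝ := Lam x + Lam (1 / 2 - x)

/-- the exponent of the kernel number `s` -/
noncomputable def locE (p s : ℕ) (c : Cor ℕ) : ℝ :=
  upF ((s : ℝ) / p) (c.uT / p) (c.n / p) ((p - c.uT - s - c.n : ℝ) / p) +
    lowF ((s : ℝ) / p) (c.uB / p) ((c.uL - c.n : ℝ) / p) ((c.uR - (p - c.uT - s - c.n) : ℝ) / p)

end Pool.Agent.Helper28.TX
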